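import Pool.Agent.Helper81.XP.StB

set_option autoImplicit false

/-!
# The resultant (module RES)
-/

open Finset Polynomial

namespace Pool.Agent.Helper88.XP

open Pool.Agent.Helper81.XP

section TD

variable {k : Type} [Field k]

theorem res_td_mono {N M : ℕ} {F : T2 k} (h : TD2 N F) (hNM : N ≤ M) : TD2 M F :=
  fun i j hij => (h i j hij).trans hNM

theorem res_td_zero (N : ℕ) : TD2 N (0 : T2 k) := by
  intro i j h
  simp at h

theorem res_td_one : TD2 0 (1 : T2 k) := by
  intro i j h
  rw [Polynomial.coeff_one] at h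
  split_ifs at h with hi
  · rw [Polynomial.coeff_one] at h
    split_ifs at h with hj
    · omega
    · exact absurd rfl h
  · exact absurd (Polynomial.coeff_zero j) h

theorem res_td_add {N : ℕ} {F G : T2 k} (hF : TD2 N F) (hG : TD2 N G) : TD2 N (F + G) := by
  intro i j h
  rw [Polynomial.coeff_add, Polynomial.coeff_add] at h
  by_cases h1 : (F.coeff i).coeff j = 0
  · refine hG i j fun h2 => h ?_
    rw [h1, h2, add_zero]
  · exact hF i j h1

theorem res_td_neg {N : ℕ} {F : T2 k} (hF : TD2 N F) : TD2 N (-F) := by
  intro i j h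
  rw [Polynomial.coeff_neg, Polynomial.coeff_neg, neg_ne_zero] at h
  exact hF i j h

theorem res_td_mul {N M : ℕ} {F G : T2 k} (hF : TD2 N F) (hG : TD2 M G) :
    TD2 (N + M) (F * G) := by
  intro i j h
  rw [Polynomial.coeff_mul, Polynomial.finsetSum_coeff] at h
  obtain ⟨x, hx, h1⟩ := Finset.exists_ne_zero_of_sum_ne_zero h
  rw [Polynomial.coeff_mul] at h1
  obtain ⟨y, hy, h2⟩ := Finset.exists_ne_zero_of_sum_ne_zero h1
  have h3 := hF _ _ (left_ne_zero_of_mul h2)
  have h4 := hG _ _ (right_ne_zero_of_mul h2)
  have h5 := Finset.HasAntidiagonal.mem_antidiagonal.1 hx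
  have h6 := Finset.HasAntidiagonal.mem_antidiagonal.1 hy
  omega

theorem res_td_sum {ι : Type} (s : Finset ι) (N : ℕ) (f : ι → T2 k) (h : ∀ i ∈ s, TD2 N (f i)) :
    TD2 N (∑ i ∈ s, f i) := by
  classical
  induction s using Finset.induction_on with
  | empty =>
    rw [Finset.sum_empty]
    exact res_td_zero N
  | insert a s ha ih =>
    rw [Finset.sum_insert ha]
    exact res_td_add (h a (Finset.mem_insert_self a s))
      (ih fun i hi => h i (Finset.mem_insert_of_mem hi))

theorem res_td_prod {ι : Type} (s : Finset ι) (N : ℕ) (f : ι → T2 k)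
    (h : ∀ i ∈ s, TD2 N (f i)) : TD2 (s.card * N) (∏ i ∈ s, f i) := by
  classical
  induction s using Finset.induction_on with
  | empty =>
    rw [Finset.prod_empty]
    exact res_td_mono res_td_one (Nat.zero_le _)
  | insert a s ha ih =>
    rw [Finset.prod_insert ha, Finset.card_insert_of_notMem ha]
    refine res_td_mono (res_td_mul (h a (Finset.mem_insert_self a s))
      (ih fun i hi => h i (Finset.mem_insert_of_mem hi))) ?_
    linarith

theorem res_td_det {m : ℕ} (N : ℕ) (A : Matrix (Fin m) (Fin m) (T2 k))
    (h : ∀ i j, TD2 N (A i j)) : TD2 (m * N) A.det := by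
  rw [Matrix.det_apply]
  refine res_td_sum _ _ _ fun σ _ => ?_
  have h1 : TD2 (m * N) (∏ i, A (σ i) i) := by
    have h2 := res_td_prod (Finset.univ : Finset (Fin m)) N (fun i => A (σ i) i)
      fun i _ => h _ _
    rwa [Finset.card_univ, Fintype.card_fin] at h2
  rcases Int.units_eq_one_or (Equiv.Perm.sign σ) with hs | hs
  · rw [hs, one_smul]
    exact h1
  · rw [hs, Units.neg_smul, one_smul]
    exact res_td_neg h1

theorem res_td_coeff {N : ℕ} {F : T3 k} (hF : TD3 N F) (i : ℕ) : TD2 N (F.coeff i) := by
  intro j l h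
  have := hF i j l h
  omega

theorem res_td_deg {N : ℕ} {F : T3 k} (hF : TD3 N F) : F.natDegree ≤ N := by
  rw [Polynomial.natDegree_le_iff_coeff_eq_zero]
  intro i hi
  ext j l
  by_contra h
  have := hF i j l h
  omega

end TD

theorem st_RES : ST_RES := by
  intro k _ g g' d D hd hg hirr hdvd hg'
  obtain ⟨hg1, c, hc, hcd⟩ := hg
  have hCc : (Polynomial.C c : Polynomial k) ≠ 0 := Polynomial.C_ne_zero.2 hc
  have hdeg : g.natDegree = d := by
    refine le_antisymm (res_td_deg hg1) (Polynomial.le_natDegree_of_ne_zero ?_)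
    rw [hcd]
    exact Polynomial.C_ne_zero.2 hCc
  have hdeg' := res_td_deg hg'
  refine ⟨Polynomial.resultant g g' d g'.natDegree, ?_, ?_, ?_⟩
  · -- nonzero
    have hinj : Function.Injective (algebraMap (T2 k) (FractionRing (T2 k))) :=
      IsFractionRing.injective _ _
    have hassoc : Associated g
        (Polynomial.C (Polynomial.C (Polynomial.C c⁻¹) : T2 k) * g) := by
      refine ⟨⟨Polynomial.C (Polynomial.C (Polynomial.C c⁻¹) : T2 k),
        Polynomial.C (Polynomial.C (Polynomial.C c) : T2 k), ?_, ?_⟩, mul_comm g (Polynomial.C (Polynomial.C (Polynomial.C c⁻¹) : T2 k))⟩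
      · rw [← Polynomial.C_mul, ← Polynomial.C_mul, ← Polynomial.C_mul, inv_mul_cancel₀ hc,
          Polynomial.C_1, Polynomial.C_1, Polynomial.C_1]
      · rw [← Polynomial.C_mul, ← Polynomial.C_mul, ← Polynomial.C_mul, mul_inv_cancel₀ hc,
          Polynomial.C_1, Polynomial.C_1, Polynomial.C_1]
    have hmonic : (Polynomial.C (Polynomial.C (Polynomial.C c⁻¹) : T2 k) * g).Monic := by
      have h1 : (Polynomial.C (Polynomial.C c⁻¹) : T2 k) * g.leadingCoeff = 1 := by
        rw [Polynomial.leadingCoeff, hdeg, hcd, ← Polynomial.C_mul, ← Polynomial.C_mul,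
          inv_mul_cancel₀ hc, Polynomial.C_1, Polynomial.C_1]
      exact Polynomial.monic_C_mul_of_mul_leadingCoeff_eq_one h1
    have hirr1 := hassoc.irreducible hirr
    have hirr2 := (Polynomial.Monic.irreducible_iff_irreducible_map_fraction_map
      (K := FractionRing (T2 k)) hmonic).1 hirr1
    have hassoc2 : Associated (g.map (algebraMap (T2 k) (FractionRing (T2 k))))
        ((Polynomial.C (Polynomial.C (Polynomial.C c⁻¹) : T2 k) * g).map
          (algebraMap (T2 k) (FractionRing (T2 k)))) :=
      hassoc.map (Polynomial.mapRingHom (algebraMap (T2 k) (FractionRing (T2 k))))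
    have hirr3 := hassoc2.symm.irreducible hirr2
    have hnd : ¬ g.map (algebraMap (T2 k) (FractionRing (T2 k)))
        ∣ g'.map (algebraMap (T2 k) (FractionRing (T2 k))) := by
      intro h
      have h1 := hassoc2.symm.dvd.trans h
      have h2 := (Polynomial.map_dvd_map _ hinj hmonic).1 h1
      exact hdvd (hassoc.dvd.trans h2)
    have hcop := hirr3.coprime_iff_not_dvd.2 hnd
    intro hR
    have h1 := Polynomial.resultant_map_map g g' d g'.natDegree
      (algebraMap (T2 k) (FractionRing (T2 k)))
    rw [hR, map_zero] at h1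
    have e1 : (g.map (algebraMap (T2 k) (FractionRing (T2 k)))).natDegree = d := by
      rw [Polynomial.natDegree_map_eq_of_injective hinj, hdeg]
    have e2 : (g'.map (algebraMap (T2 k) (FractionRing (T2 k)))).natDegree = g'.natDegree :=
      Polynomial.natDegree_map_eq_of_injective hinj _
    have h2 : Polynomial.resultant (g.map (algebraMap (T2 k) (FractionRing (T2 k))))
        (g'.map (algebraMap (T2 k) (FractionRing (T2 k)))) = 0 := by
      rw [e1, e2]
      exact h1
    exact (Polynomial.resultant_eq_zero_iff.1 h2).2 hcop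
  · -- degree
    have h1 : TD2 ((d + g'.natDegree) * (d + D))
        (Polynomial.sylvester g g' d g'.natDegree).det := by
      refine res_td_det _ _ fun i j => ?_
      induction j using Fin.addCases with
      | left j =>
        simp only [Polynomial.sylvester, Matrix.of_apply, Fin.addCases_left]
        split_ifs
        · exact res_td_mono (res_td_coeff hg' _) (by omega)
        · exact res_td_zero _
      | right j =>
        simp only [Polynomial.sylvester, Matrix.of_apply, Fin.addCases_right]
        split_ifs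
        · exact res_td_mono (res_td_coeff hg1 _) (by omega)
        · exact res_td_zero _
    refine res_td_mono h1 ?_
    rw [sq]
    exact Nat.mul_le_mul (by omega) le_rfl
  · intro K _ _ a b w h1 h2
    obtain ⟨p, q, -, -, h3⟩ := Polynomial.exists_mul_add_mul_eq_C_resultant g g' hdeg.le le_rfl
      (Or.inl (by omega) : d ≠ 0 ∨ g'.natDegree ≠ 0)
    have h4 := congrArg (ev3 a b w) h3
    rw [map_add, map_mul, map_mul, h1, h2, zero_mul, zero_mul, add_zero] at h4
    have h5 : ev3 a b w (Polynomial.C (Polynomial.resultant g g' d g'.natDegree))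
        = ev2 a b (Polynomial.resultant g g' d g'.natDegree) := by
      unfold ev3
      rw [Polynomial.coe_eval₂RingHom, Polynomial.eval₂_C]
    rw [← h5, ← h4]

end Pool.Agent.Helper88.XP
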