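import Pool.Agent.Helper81.XP.StA

set_option autoImplicit false

/-!
# Tori of an approximate group, lower bounds (module PRB)
-/

open Finset
open scoped Pointwise LinearAlgebra.Projectivization

namespace Pool.Agent.Helper88.XP

open Pool.Agent.Helper81.XP

theorem prb_neg {K : Type} [Field K] (ξ : Pt K) : (-1 : SL K) • ξ = ξ := by
  induction ξ using Projectivization.ind with
  | h v hv =>
    rw [Projectivization.smul_mk, Projectivization.mk_eq_mk_iff']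
    refine ⟨-1, ?_⟩
    rw [Matrix.SpecialLinearGroup.smul_def]
    simp

theorem prb_tr_comm {K : Type} [Field K] (x y : SL K) : tr (x * y) = tr (y * x) := by
  unfold tr
  rw [Matrix.SpecialLinearGroup.coe_mul, Matrix.SpecialLinearGroup.coe_mul,
    Matrix.trace_mul_comm]

theorem prb_tr_conj {K : Type} [Field K] (g a : SL K) : tr (g * a * g⁻¹) = tr a := by
  rw [prb_tr_comm, inv_mul_cancel_left]

theorem prb_comm {Γ : Type} [Group Γ] (g g0 a : Γ) (h : g * a * g⁻¹ = g0 * a * g0⁻¹) :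
    g0⁻¹ * g * a = a * (g0⁻¹ * g) := by
  have h1 : g * a = g0 * a * g0⁻¹ * g := by
    rw [← h, inv_mul_cancel_right]
  rw [mul_assoc, h1]
  group

theorem prb_real (n t X c1 c2 κ : ℝ) (C1 : ℕ) (hn : 0 < n) (ht : 0 ≤ t) (hX : 0 ≤ X)
    (_hc1 : 0 ≤ c1) (hc2 : 0 ≤ c2) (hκ : 1 ≤ κ) (hC1 : 1 ≤ C1) (h1 : n ≤ t * X)
    (h2 : X ≤ 2 * 1 * c1 * c2) (h3 : c1 ^ 3 ≤ C1 * κ ^ C1 * n)
    (h4 : c2 ^ 3 ≤ C1 * κ ^ C1 * n) :
    n ≤ ((16 * C1 ^ 2 : ℕ) : ℝ) * κ ^ (16 * C1 ^ 2) * t ^ 3 := by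
  have hM : 0 ≤ C1 * κ ^ C1 * n := by positivity
  have h5 : c1 ^ 3 * c2 ^ 3 ≤ (C1 * κ ^ C1 * n) * (C1 * κ ^ C1 * n) :=
    mul_le_mul h3 h4 (by positivity) hM
  have h6 : X ^ 3 ≤ (2 * 1 * c1 * c2) ^ 3 := pow_le_pow_left₀ hX h2 3
  have h7 : n ^ 3 ≤ (t * X) ^ 3 := pow_le_pow_left₀ hn.le h1 3
  have h8 : n ^ 3 ≤ t ^ 3 * (8 * ((C1 * κ ^ C1 * n) * (C1 * κ ^ C1 * n))) := by
    calc n ^ 3 ≤ (t * X) ^ 3 := h7
      _ = t ^ 3 * X ^ 3 := by ring
      _ ≤ t ^ 3 * (2 * 1 * c1 * c2) ^ 3 := mul_le_mul_of_nonneg_left h6 (by positivity)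
      _ = t ^ 3 * (8 * (c1 ^ 3 * c2 ^ 3)) := by ring
      _ ≤ _ := by
        refine mul_le_mul_of_nonneg_left ?_ (by positivity)
        linarith
  have h9 : n ≤ t ^ 3 * (8 * ((C1 : ℝ) ^ 2 * κ ^ (2 * C1))) := by
    have h10 : n ^ 2 * n ≤ n ^ 2 * (t ^ 3 * (8 * ((C1 : ℝ) ^ 2 * κ ^ (2 * C1)))) := by
      have e1 : κ ^ (2 * C1) = κ ^ C1 * κ ^ C1 := by
        rw [two_mul, pow_add]
      rw [e1]
      calc n ^ 2 * n = n ^ 3 := by ring
        _ ≤ _ := h8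
        _ = _ := by ring
    exact le_of_mul_le_mul_left h10 (by positivity)
  have h11 : κ ^ (2 * C1) ≤ κ ^ (16 * C1 ^ 2) := by
    refine pow_le_pow_right₀ hκ ?_
    nlinarith
  refine h9.trans ?_
  have h12 : (C1 : ℝ) ^ 2 * κ ^ (2 * C1) ≤ (C1 : ℝ) ^ 2 * κ ^ (16 * C1 ^ 2) :=
    mul_le_mul_of_nonneg_left h11 (by positivity)
  have h13 : 0 ≤ (C1 : ℝ) ^ 2 * κ ^ (16 * C1 ^ 2) := by positivity
  push_cast
  calc t ^ 3 * (8 * ((C1 : ℝ) ^ 2 * κ ^ (2 * C1)))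
      ≤ t ^ 3 * (16 * ((C1 : ℝ) ^ 2 * κ ^ (16 * C1 ^ 2))) := by
        refine mul_le_mul_of_nonneg_left ?_ (by positivity)
        linarith
    _ = _ := by ring

/-- powers of a finite set -/
@[irreducible] def PW {Γ : Type} [Group Γ] [DecidableEq Γ] (A : Finset Γ) (j : ℕ) : Finset Γ := A ^ j

/-- powers in a monoid -/
@[irreducible] def mpow {M : Type} [Monoid M] (a : M) (j : ℕ) : M := a ^ j

theorem prb_lit {Γ : Type} [Group Γ] [DecidableEq Γ] (A : Finset Γ) (j : ℕ) :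
    mpow A j = PW A j := by
  unfold mpow PW
  rfl

theorem prb_mpow {M : Type} [Monoid M] (a : M) (j : ℕ) : mpow a j = a ^ j := by
  unfold mpow
  rfl

theorem prb_PW {Γ : Type} [Group Γ] [DecidableEq Γ] (A : Finset Γ) (j : ℕ) :
    PW A j = A ^ j := by
  unfold PW
  rfl

theorem prb_one {Γ : Type} [Group Γ] [DecidableEq Γ] (A : Finset Γ) : PW A 1 = A := by
  unfold PW
  exact pow_one A

theorem prb_inv {Γ : Type} [Group Γ] [DecidableEq Γ] (A : Finset Γ) (hAi : A⁻¹ = A) (x : Γ)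
    (j : ℕ) (hx : x ∈ PW A j) : x⁻¹ ∈ PW A j := by
  unfold PW at hx ⊢
  have h : x⁻¹ ∈ (A ^ j)⁻¹ := Finset.inv_mem_inv hx
  rwa [← inv_pow, hAi] at h

theorem prb_mul {Γ : Type} [Group Γ] [DecidableEq Γ] (A : Finset Γ) {x y : Γ} {i j : ℕ}
    (k : ℕ) (hx : x ∈ PW A i) (hy : y ∈ PW A j) (hk : i + j = k) : x * y ∈ PW A k := by
  subst hk
  unfold PW at hx hy ⊢
  rw [pow_add]
  exact Finset.mul_mem_mul hx hy

theorem prb_mono {Γ : Type} [Group Γ] [DecidableEq Γ] (A : Finset Γ) (h1A : 1 ∈ A) (x : Γ)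
    (i j : ℕ) (hij : i ≤ j) (hx : x ∈ PW A i) : x ∈ PW A j := by
  unfold PW at hx ⊢
  exact Finset.pow_subset_pow_right h1A hij hx

theorem prb_fib {Γ : Type} [Group Γ] [DecidableEq Γ] (A : Finset Γ) (hAi : A⁻¹ = A) (a : Γ) :
    A.card ≤ ((PW A 2).filter (fun x => x * a = a * x)).card
      * (A.image (fun g => g * a * g⁻¹)).card := by
  refine Finset.card_le_mul_card_image A _ fun x0 hx0 => ?_
  obtain ⟨g0, hg0, rfl⟩ := Finset.mem_image.1 hx0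
  refine Finset.card_le_card_of_injOn (fun g => g0⁻¹ * g) ?_ ?_
  · intro g hg
    rw [Finset.mem_coe, Finset.mem_filter] at hg
    rw [Finset.mem_coe, Finset.mem_filter]
    refine ⟨?_, prb_comm g g0 a hg.2⟩
    refine prb_mul A 2 (i := 1) (j := 1) ?_ ?_ (by norm_num)
    · refine prb_inv A hAi _ 1 ?_
      rw [prb_one]
      exact hg0
    · rw [prb_one]
      exact hg.1
  · intro g _ g' _ h
    exact mul_left_cancel h

theorem prb_img {Γ K : Type} [DecidableEq K] (f T : Γ → K) (X Z : Finset Γ)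
    (h : ∀ x ∈ X, ∃ y ∈ Z, T y = f x) : (X.image f).card ≤ (Z.image T).card := by
  refine Finset.card_le_card fun c hc => ?_
  rw [Finset.mem_image] at hc ⊢
  obtain ⟨x, hx, rfl⟩ := hc
  exact h x hx

theorem prb_abs {Γ K : Type} [Group Γ] [DecidableEq Γ] [Field K] [DecidableEq K] (T : Γ → K)
    (hconj : ∀ g a, T (g * a * g⁻¹) = T a) (A : Finset Γ) (h1A : 1 ∈ A) (hAi : A⁻¹ = A)
    (h1 h2 : Γ) (hh1 : h1 ∈ A) (hh2 : h2 ∈ PW A 17)
    (hTRC : ∀ X : Finset Γ, X.card ≤ 2 * (X.image (fun x => T x)).card *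
      (X.image (fun x => T (x * h1))).card * (X.image (fun x => T (x * h2))).card)
    (C1 : ℕ) (hC1 : 1 ≤ C1) (κ : ℝ) (hκ : 1 ≤ κ)
    (hP2 : ∀ j ≤ 40, (((PW A j).image (fun x => T x)).card : ℝ) ^ 3
      ≤ C1 * κ ^ C1 * (A.card : ℝ)) :
    (∀ a ∈ PW A 20, T a ^ 2 ≠ 4 →
      (A.card : ℝ) ≤ ((16 * C1 ^ 2 : ℕ) : ℝ) * κ ^ (16 * C1 ^ 2)
        * (((PW A 2).filter (fun x => x * a = a * x)).card : ℝ) ^ 3) ∧
    (((16 * C1 ^ 2 : ℕ) : ℝ) * κ ^ (16 * C1 ^ 2) < (A.card : ℝ) →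
      ∃ a ∈ PW A 20, T a ^ 2 ≠ 4) := by
  have hA0 : 0 < A.card := Finset.card_pos.2 ⟨1, h1A⟩
  have hA1 : ∀ x ∈ A, x ∈ PW A 1 := fun x hx => by rwa [prb_one]
  have hinv := prb_inv A hAi
  constructor
  · intro a ha hta
    have hfib := prb_fib A hAi a
    have hX := hTRC (A.image (fun g => g * a * g⁻¹))
    have hXm : ∀ x ∈ A.image (fun g => g * a * g⁻¹), x ∈ PW A 22 ∧ T x = T a := by
      intro x hx
      obtain ⟨g0, hg0, rfl⟩ := Finset.mem_image.1 hx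
      exact ⟨prb_mul A 22 (prb_mul A 21 (hA1 _ hg0) ha (by norm_num)) (hinv _ _ (hA1 _ hg0)) (by norm_num),
        hconj g0 a⟩
    have e1 : ((A.image (fun g => g * a * g⁻¹)).image (fun x => T x)).card ≤ 1 := by
      refine (Finset.card_le_card (t := {T a}) ?_).trans (by simp)
      rw [Finset.image_subset_iff]
      intro x hx
      rw [Finset.mem_singleton]
      exact (hXm x hx).2
    have e2 : ((A.image (fun g => g * a * g⁻¹)).image (fun x => T (x * h1))).card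
        ≤ ((PW A 23).image (fun x => T x)).card :=
      prb_img _ _ _ _ fun x hx =>
        ⟨x * h1, prb_mul A 23 (hXm x hx).1 (hA1 _ hh1) (by norm_num), rfl⟩
    have e3 : ((A.image (fun g => g * a * g⁻¹)).image (fun x => T (x * h2))).card
        ≤ ((PW A 39).image (fun x => T x)).card :=
      prb_img _ _ _ _ fun x hx =>
        ⟨x * h2, prb_mul A 39 (hXm x hx).1 hh2 (by norm_num), rfl⟩
    have e4 : (A.image (fun g => g * a * g⁻¹)).card
        ≤ 2 * 1 * ((PW A 23).image (fun x => T x)).card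
          * ((PW A 39).image (fun x => T x)).card :=
      hX.trans (Nat.mul_le_mul (Nat.mul_le_mul (Nat.mul_le_mul le_rfl e1) e2) e3)
    have f1 := hP2 23 (by norm_num)
    have f2 := hP2 39 (by norm_num)
    exact prb_real (A.card : ℝ) _ ((A.image (fun g => g * a * g⁻¹)).card : ℝ) _ _ κ C1
      (by exact_mod_cast hA0) (Nat.cast_nonneg _) (Nat.cast_nonneg _) (Nat.cast_nonneg _)
      (Nat.cast_nonneg _) hκ hC1 (by exact_mod_cast hfib) (by exact_mod_cast e4) f1 f2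
  · intro hlt
    by_contra hcon
    push Not at hcon
    have htr : ∀ x ∈ PW A 20, T x ∈ ({2, -2} : Finset K) := by
      intro x hx
      have h3 : (T x - 2) * (T x + 2) = 0 := by
        have := hcon x hx
        linear_combination this
      rw [Finset.mem_insert, Finset.mem_singleton]
      rcases mul_eq_zero.1 h3 with h | h
      · exact Or.inl (sub_eq_zero.1 h)
      · exact Or.inr (eq_neg_of_add_eq_zero_left h)
    have hcd : ∀ f : Γ → Γ, (∀ x ∈ A, f x ∈ PW A 20) →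
        (A.image (fun x => T (f x))).card ≤ 2 := by
      intro f hf
      refine (Finset.card_le_card (t := {2, -2}) ?_).trans Finset.card_le_two
      rw [Finset.image_subset_iff]
      intro x hx
      exact htr _ (hf x hx)
    have hX := hTRC A
    have e1 := hcd (fun x => x) fun x hx => prb_mono A h1A x 1 20 (by norm_num) (hA1 x hx)
    have e2 := hcd (fun x => x * h1) fun x hx => prb_mono A h1A _ 2 20 (by norm_num)
      (prb_mul A 2 (hA1 x hx) (hA1 _ hh1) (by norm_num))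
    have e3 := hcd (fun x => x * h2) fun x hx => prb_mono A h1A _ 18 20 (by norm_num)
      (prb_mul A 18 (hA1 x hx) hh2 (by norm_num))
    have h16 : A.card ≤ 16 := hX.trans
      (Nat.mul_le_mul (Nat.mul_le_mul (Nat.mul_le_mul le_rfl e1) e2) e3)
    have h17 : (16 : ℝ) ≤ ((16 * C1 ^ 2 : ℕ) : ℝ) := by
      exact_mod_cast (by nlinarith : 16 ≤ 16 * C1 ^ 2)
    have h18 : (1 : ℝ) ≤ κ ^ (16 * C1 ^ 2) := one_le_pow₀ hκ
    have h19 : (A.card : ℝ) ≤ 16 := by exact_mod_cast h16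
    nlinarith

theorem prb_escd {Γ Y : Type} [Group Γ] [inst : DecidableEq Γ] [MulAction Γ Y] (hESC : ST_ESC)
    (S : Finset Γ) (h1 : 1 ∈ S) (hS : S⁻¹ = S)
    (hN : ∀ Φ : Finset Y, Φ.Nonempty → Φ.card ≤ 3 → ∃ g ∈ S, ∃ y ∈ Φ, g • y ∉ Φ)
    (Φ : Finset Y) (hΦ : Φ.card = 2) : ∃ g ∈ S ^ 8, ∀ y ∈ Φ, g • y ∉ Φ := by
  have h : inst = fun a b => Classical.propDecidable (a = b) := Subsingleton.elim _ _
  subst h
  exact hESC Γ Y S h1 hS hN Φ hΦ

open Classical in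
theorem prb_esc {K : Type} [Field K] (hESC : ST_ESC) (A : Finset (SL K)) (h1A : 1 ∈ A)
    (hAi : A⁻¹ = A) (hNI : NI A) (Φ : Finset (Pt K)) (hΦ : Φ.card = 2) :
    ∃ g ∈ PW A 8, ∀ y ∈ Φ, g • y ∉ Φ := by
  rw [← prb_lit, prb_mpow]
  exact prb_escd hESC A h1A hAi hNI Φ hΦ

open Classical in
theorem prb_h {K : Type} [Field K] [IsAlgClosed K] (hCFP : ST_CFP) (hFIX : ST_FIX)
    (hESC : ST_ESC) (A : Finset (SL K)) (h1A : 1 ∈ A) (hAi : A⁻¹ = A) (hNI : NI A) :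
    ∃ h1 ∈ A, ∃ h2 ∈ PW A 17, tr (ct h1 h2) ≠ 2 := by
  obtain ⟨h1, hh1, hne1, hnem⟩ : ∃ h1 ∈ A, h1 ≠ 1 ∧ h1 ≠ -1 := by
    obtain ⟨ξ⟩ : Nonempty (Pt K) := inferInstance
    obtain ⟨g, hg, y, hy, hgy⟩ := hNI {ξ} (by simp) (by simp)
    rw [Finset.mem_singleton] at hy hgy
    rw [hy] at hgy
    refine ⟨g, hg, fun h => hgy ?_, fun h => hgy ?_⟩
    · rw [h, one_smul]
    · rw [h, prb_neg]
  obtain ⟨ξ1, ξ2, hfix, -⟩ := hFIX K h1 hne1 hnem
  obtain ⟨g, hg8, ⟨g11, g12⟩, g21, g22⟩ : ∃ g ∈ PW A 8,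
      (g • ξ1 ≠ ξ1 ∧ g • ξ1 ≠ ξ2) ∧ (g • ξ2 ≠ ξ1 ∧ g • ξ2 ≠ ξ2) := by
    by_cases h12 : ξ1 = ξ2
    · rw [← h12]
      obtain ⟨g, hg, y, hy, hgy⟩ := hNI {ξ1} (by simp) (by simp)
      rw [Finset.mem_singleton] at hy hgy
      rw [hy] at hgy
      refine ⟨g, prb_mono A h1A g 1 8 (by norm_num) ?_, ⟨hgy, hgy⟩, ⟨hgy, hgy⟩⟩
      rw [prb_one]
      exact hg
    · obtain ⟨g, hg, hgy⟩ := prb_esc hESC A h1A hAi hNI {ξ1, ξ2} (Finset.card_pair h12)
      have e1 := hgy ξ1 (by simp)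
      have e2 := hgy ξ2 (by simp)
      simp only [Finset.mem_insert, Finset.mem_singleton, not_or] at e1 e2
      exact ⟨g, hg, e1, e2⟩
  have hA1 : h1 ∈ PW A 1 := by rwa [prb_one]
  refine ⟨h1, hh1, g * h1 * g⁻¹, ?_, ?_⟩
  · exact prb_mul A 17 (prb_mul A 9 hg8 hA1 (by norm_num)) (prb_inv A hAi _ 8 hg8) (by norm_num)
  · intro h
    rw [hCFP] at h
    obtain ⟨ξ, ha, hb⟩ := h
    have hb' : h1 • (g⁻¹ • ξ) = g⁻¹ • ξ := by
      rw [mul_smul, mul_smul] at hb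
      rw [eq_inv_smul_iff]
      exact hb
    rw [hfix] at ha hb'
    rw [inv_smul_eq_iff, inv_smul_eq_iff] at hb'
    rcases ha with rfl | rfl <;> rcases hb' with h | h
    · exact g11 h.symm
    · exact g21 h.symm
    · exact g12 h.symm
    · exact g22 h.symm

open Classical in
theorem st_PRB (hPRA : ST_PRA) (hTRC : ST_TRC) (hCFP : ST_CFP) (hFIX : ST_FIX)
    (hESC : ST_ESC) : ST_PRB := by
  obtain ⟨C1, hC1, hP⟩ := hPRA
  refine ⟨16 * C1 ^ 2, by nlinarith, ?_⟩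
  intro K _ _ A κ hA hNI
  have hP2 : ∀ j ≤ 40, (((PW A j).image (fun x => tr x)).card : ℝ) ^ 3
      ≤ C1 * κ ^ C1 * (A.card : ℝ) := by
    intro j hj
    rw [prb_PW]
    exact (hP K A κ hA hNI).2 j hj
  have h1A : (1 : SL K) ∈ A := by
    have := hA.one_mem
    exact_mod_cast this
  have hAi : A⁻¹ = A := by
    have := hA.inv_eq_self
    exact_mod_cast this
  obtain ⟨h1, hh1, h2, hh2, hcomm⟩ := prb_h hCFP hFIX hESC A h1A hAi hNI
  have h := prb_abs (fun x : SL K => tr x) prb_tr_conj A h1A hAi h1 h2 hh1 hh2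
    (hTRC K h1 h2 hcomm) C1 hC1 κ hA.one_le hP2
  rw [← prb_lit, ← prb_lit, prb_mpow, prb_mpow] at h
  exact h

end Pool.Agent.Helper88.XP
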